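import Mathlib

/-!
Packet B for MP_75608d_al (expanding pairs in the alternating groups): routing in a grid.
-/

open Equiv

namespace Pool.Agent.Helper15.Pair

/-- Koenig edge colouring of a regular bipartite multigraph. -/
theorem koenig {ι E : Type} [Fintype ι] [DecidableEq ι] [DecidableEq E]
    (src tgt : E → ι) : ∀ (D : ℕ) (F : Finset E),
    (∀ j, (F.filter (fun e => src e = j)).card = D) →
    (∀ j, (F.filter (fun e => tgt e = j)).card = D) →
    ∃ c : E → ℕ, (∀ e ∈ F, c e < D) ∧
      (∀ e ∈ F, ∀ e' ∈ F, src e = src e' → c e = c e' → e = e') ∧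
      (∀ e ∈ F, ∀ e' ∈ F, tgt e = tgt e' → c e = c e' → e = e') := by
  intro D
  induction D with
  | zero =>
    intro F h1 _
    have hF : ∀ e, e ∉ F := by
      intro e he
      have := h1 (src e)
      rw [Finset.card_eq_zero] at this
      have h2 : e ∈ F.filter (fun e' => src e' = src e) := by simp [he]
      rw [this] at h2
      simp at h2
    exact ⟨fun _ => 0, fun e he => (hF e he).elim, fun e he => (hF e he).elim,
      fun e he => (hF e he).elim⟩
  | succ D ih =>
    intro F h1 h2
    -- a perfect matching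
    obtain ⟨f, hfinj, hf⟩ := (Finset.all_card_le_biUnion_card_iff_exists_injective
      (fun j => (F.filter (fun e => src e = j)).image tgt)).1 (by
        intro s
        have e1 : (F.filter (fun e => src e ∈ s)).card = s.card * (D + 1) := by
          rw [Finset.card_eq_sum_card_fiberwise (f := src) (t := s)
            (fun e he => by simpa using (Finset.mem_filter.1 he).2)]
          rw [Finset.sum_const_nat (m := D + 1)]
          intro j hj
          rw [← h1 j, Finset.filter_filter]
          congr 1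
          ext e
          simp only [Finset.mem_filter]
          constructor
          · rintro ⟨h, _, h'⟩; exact ⟨h, h'⟩
          · rintro ⟨h, h'⟩; exact ⟨h, by rw [h']; exact hj, h'⟩
        have e2 : ∀ t : Finset ι, (F.filter (fun e => tgt e ∈ t)).card = t.card * (D + 1) := by
          intro t
          rw [Finset.card_eq_sum_card_fiberwise (f := tgt) (t := t)
            (fun e he => by simpa using (Finset.mem_filter.1 he).2)]
          rw [Finset.sum_const_nat (m := D + 1)]
          intro j hj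
          rw [← h2 j, Finset.filter_filter]
          congr 1
          ext e
          simp only [Finset.mem_filter]
          constructor
          · rintro ⟨h, _, h'⟩; exact ⟨h, h'⟩
          · rintro ⟨h, h'⟩; exact ⟨h, by rw [h']; exact hj, h'⟩
        have e3 : (F.filter (fun e => src e ∈ s)) ⊆ (F.filter (fun e => tgt e ∈
            s.biUnion (fun j => (F.filter (fun e => src e = j)).image tgt))) := by
          intro e he
          rw [Finset.mem_filter] at he ⊢
          refine ⟨he.1, ?_⟩
          rw [Finset.mem_biUnion]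
          exact ⟨src e, he.2, Finset.mem_image.2 ⟨e, by simp [he.1], rfl⟩⟩
        have e4 := Finset.card_le_card e3
        rw [e1, e2] at e4
        exact Nat.le_of_mul_le_mul_right e4 (Nat.succ_pos D))
    have hf' : ∀ j, ∃ e, e ∈ F ∧ src e = j ∧ tgt e = f j := by
      intro j
      obtain ⟨e, he, hef⟩ := Finset.mem_image.1 (hf j)
      rw [Finset.mem_filter] at he
      exact ⟨e, he.1, he.2, hef⟩
    choose μ hμF hμs hμt using hf'
    have hfsurj : Function.Surjective f := Finite.surjective_of_injective hfinj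
    set M : Finset E := Finset.univ.image μ with hM
    have hMF : M ⊆ F := by
      intro e he
      rw [hM, Finset.mem_image] at he
      obtain ⟨j, -, rfl⟩ := he
      exact hμF j
    have hMsrc : ∀ e ∈ M, e = μ (src e) := by
      intro e he
      rw [hM, Finset.mem_image] at he
      obtain ⟨j, -, rfl⟩ := he
      rw [hμs]
    have hMtgt : ∀ e ∈ M, ∀ e' ∈ M, tgt e = tgt e' → e = e' := by
      intro e he e' he' h
      rw [hM, Finset.mem_image] at he he'
      obtain ⟨j, -, rfl⟩ := he
      obtain ⟨j', -, rfl⟩ := he'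
      rw [hμt, hμt] at h
      rw [hfinj h]
    have hms : ∀ j, ((F \ M).filter (fun e => src e = j)).card = D := by
      intro j
      have : (F.filter (fun e => src e = j)) = insert (μ j) ((F \ M).filter (fun e => src e = j)) := by
        ext e
        rw [Finset.mem_insert, Finset.mem_filter, Finset.mem_filter, Finset.mem_sdiff]
        constructor
        · rintro ⟨h3, h4⟩
          by_cases h5 : e ∈ M
          · left; rw [hMsrc e h5, h4]
          · right; exact ⟨⟨h3, h5⟩, h4⟩
        · rintro (h3 | ⟨⟨h3, -⟩, h4⟩)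
          · subst h3; exact ⟨hμF j, hμs j⟩
          · exact ⟨h3, h4⟩
      have h3 := h1 j
      rw [this, Finset.card_insert_of_notMem] at h3
      · omega
      · rw [Finset.mem_filter, Finset.mem_sdiff]
        rintro ⟨⟨-, h4⟩, -⟩
        exact h4 (by rw [hM]; exact Finset.mem_image_of_mem _ (Finset.mem_univ _))
    have hmt : ∀ j, ((F \ M).filter (fun e => tgt e = j)).card = D := by
      intro j
      obtain ⟨i, hi⟩ := hfsurj j
      have hiM : μ i ∈ M := by rw [hM]; exact Finset.mem_image_of_mem _ (Finset.mem_univ _)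
      have : (F.filter (fun e => tgt e = j)) = insert (μ i) ((F \ M).filter (fun e => tgt e = j)) := by
        ext e
        rw [Finset.mem_insert, Finset.mem_filter, Finset.mem_filter, Finset.mem_sdiff]
        constructor
        · rintro ⟨h3, h4⟩
          by_cases h5 : e ∈ M
          · left; exact hMtgt e h5 _ hiM (by rw [h4, hμt, hi])
          · right; exact ⟨⟨h3, h5⟩, h4⟩
        · rintro (h3 | ⟨⟨h3, -⟩, h4⟩)
          · subst h3; exact ⟨hμF i, by rw [hμt, hi]⟩
          · exact ⟨h3, h4⟩
      have h3 := h2 j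
      rw [this, Finset.card_insert_of_notMem] at h3
      · omega
      · rw [Finset.mem_filter, Finset.mem_sdiff]
        rintro ⟨⟨-, h4⟩, -⟩
        exact h4 hiM
    obtain ⟨c, hc1, hc2, hc3⟩ := ih (F \ M) hms hmt
    refine ⟨fun e => if e ∈ M then D else c e, ?_, ?_, ?_⟩
    · intro e he
      dsimp only
      split_ifs with h
      · omega
      · have := hc1 e (Finset.mem_sdiff.2 ⟨he, h⟩)
        omega
    · intro e he e' he' hs hcc
      dsimp only at hcc
      by_cases h : e ∈ M <;> by_cases h' : e' ∈ M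
      · rw [hMsrc e h, hMsrc e' h', hs]
      · rw [if_pos h, if_neg h'] at hcc
        have := hc1 e' (Finset.mem_sdiff.2 ⟨he', h'⟩)
        omega
      · rw [if_neg h, if_pos h'] at hcc
        have := hc1 e (Finset.mem_sdiff.2 ⟨he, h⟩)
        omega
      · rw [if_neg h, if_neg h'] at hcc
        exact hc2 e (Finset.mem_sdiff.2 ⟨he, h⟩) e' (Finset.mem_sdiff.2 ⟨he', h'⟩) hs hcc
    · intro e he e' he' hs hcc
      dsimp only at hcc
      by_cases h : e ∈ M <;> by_cases h' : e' ∈ M
      · exact hMtgt e h e' h' hs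
      · rw [if_pos h, if_neg h'] at hcc
        have := hc1 e' (Finset.mem_sdiff.2 ⟨he', h'⟩)
        omega
      · rw [if_neg h, if_pos h'] at hcc
        have := hc1 e (Finset.mem_sdiff.2 ⟨he, h⟩)
        omega
      · rw [if_neg h, if_neg h'] at hcc
        exact hc3 e (Finset.mem_sdiff.2 ⟨he, h⟩) e' (Finset.mem_sdiff.2 ⟨he', h'⟩) hs hcc

/-- the colouring of the grid -/
theorem colouring {m b : ℕ} (g : Perm (Fin m × (Fin b × Fin m))) :
    ∃ c : Fin m × (Fin b × Fin m) → Fin b × Fin m,
      Function.Bijective (fun e => (e.1, c e)) ∧ Function.Bijective (fun e => ((g e).1, c e)) := by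
  classical
  have hfib : ∀ j : Fin m, ((Finset.univ : Finset (Fin m × (Fin b × Fin m))).filter
      (fun e => e.1 = j)).card = b * m := by
    intro j
    have : ((Finset.univ : Finset (Fin m × (Fin b × Fin m))).filter (fun e => e.1 = j)) =
        ({j} : Finset (Fin m)) ×ˢ (Finset.univ : Finset (Fin b × Fin m)) := by
      ext ⟨x, y⟩
      simp only [Finset.mem_filter, Finset.mem_univ, true_and, Finset.mem_product,
        Finset.mem_singleton, and_true]
    rw [this, Finset.card_product]
    simp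
  obtain ⟨c, hc1, hc2, hc3⟩ := koenig (fun e : Fin m × (Fin b × Fin m) => e.1)
    (fun e => (g e).1) (b * m) Finset.univ hfib (by
      intro j
      rw [← hfib j]
      apply Finset.card_bij (fun e _ => g e)
      · intro e he
        simpa using he
      · intro e _ e' _ h
        exact g.injective h
      · intro e he
        refine ⟨g.symm e, ?_, ?_⟩
        · simpa using he
        · simp)
  refine ⟨fun e => finProdFinEquiv.symm ⟨c e, hc1 e (Finset.mem_univ _)⟩, ?_, ?_⟩
  · rw [Finite.injective_iff_bijective.symm]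
    intro e e' h
    simp only [Prod.mk.injEq, EmbeddingLike.apply_eq_iff_eq, Fin.mk.injEq] at h
    exact hc2 e (Finset.mem_univ _) e' (Finset.mem_univ _) h.1 h.2
  · rw [Finite.injective_iff_bijective.symm]
    intro e e' h
    simp only [Prod.mk.injEq, EmbeddingLike.apply_eq_iff_eq, Fin.mk.injEq] at h
    exact hc3 e (Finset.mem_univ _) e' (Finset.mem_univ _) h.1 h.2

/-- the involution exchanging the row coordinate with the column coordinate -/
def flipE (m b : ℕ) : Perm (Fin m × (Fin b × Fin m)) where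
  toFun e := (e.2.2, (e.2.1, e.1))
  invFun e := (e.2.2, (e.2.1, e.1))
  left_inv _ := rfl
  right_inv _ := rfl

theorem flipE_apply {m b : ℕ} (e : Fin m × (Fin b × Fin m)) :
    flipE m b e = (e.2.2, (e.2.1, e.1)) := rfl

theorem flipE_mul_self (m b : ℕ) : flipE m b * flipE m b = 1 := rfl

theorem flipE_inv (m b : ℕ) : (flipE m b)⁻¹ = flipE m b := rfl

/-- a permutation preserving the first coordinate -/
theorem exists_prodCongrRight {α β : Type} (h : Perm (α × β)) (hrow : ∀ e, (h e).1 = e.1) :
    ∃ π : α → Perm β, h = prodCongrRight π ∧ ∀ j x, π j x = (h (j, x)).2 := by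
  have hrow' : ∀ e, (h.symm e).1 = e.1 := by
    intro e
    have := hrow (h.symm e)
    rw [Equiv.apply_symm_apply] at this
    exact this.symm
  refine ⟨fun j => ⟨fun x => (h (j, x)).2, fun x => (h.symm (j, x)).2, ?_, ?_⟩, ?_, ?_⟩
  · intro x
    have : (j, (h (j, x)).2) = h (j, x) := Prod.ext (hrow (j, x)).symm rfl
    simp only [this, Equiv.symm_apply_apply]
  · intro x
    have : (j, (h.symm (j, x)).2) = h.symm (j, x) := Prod.ext (hrow' (j, x)).symm rfl
    simp only [this, Equiv.apply_symm_apply]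
  · ext e
    · rw [hrow e]; rfl
    · rfl
  · intro j x; rfl

section Main

variable {m b : ℕ}

/-- if `h` preserves the rows, is even and moves only points of one row, it is in the row group -/
theorem one_row (N : Perm (Fin m × (Fin b × Fin m)) → ℝ) (δ : ℝ)
    (hrow : ∀ π : Fin m → Perm (Fin b × Fin m), (∀ j, Perm.sign (π j) = 1) →
      N (prodCongrRight π) ≤ δ) (h : Perm (Fin m × (Fin b × Fin m)))
    (hr : ∀ e, (h e).1 = e.1) (j₀ : Fin m) (hj : ∀ e, e.1 ≠ j₀ → h e = e)
    (hs : Perm.sign h = 1) : N h ≤ δ := by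
  obtain ⟨π, hπ, hπ2⟩ := exists_prodCongrRight h hr
  rw [hπ]
  apply hrow
  have h1 : ∀ j, j ≠ j₀ → π j = 1 := by
    intro j hj'
    ext x
    · rw [hπ2, hj (j, x) hj']; rfl
    · rw [hπ2, hj (j, x) hj']; rfl
  intro j
  by_cases hjj : j = j₀
  · subst hjj
    have h2 : Perm.sign h = ∏ i, Perm.sign (π i) := by
      rw [hπ, Perm.sign_prodCongrRight]
    rw [hs, Finset.prod_eq_single j (fun i _ hi => by rw [h1 i hi, Perm.sign_one])
      (fun hh => (hh (Finset.mem_univ _)).elim)] at h2
    exact h2.symm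
  · rw [h1 j hjj, Perm.sign_one]

/-- conjugating a column-preserving permutation -/
theorem flip_row (h : Perm (Fin m × (Fin b × Fin m))) (hc : ∀ e, (h e).2.2 = e.2.2) (e) :
    ((flipE m b * h * flipE m b) e).1 = e.1 := by
  have := hc (flipE m b e)
  simp only [Perm.mul_apply, flipE_apply] at this ⊢
  exact this

theorem one_col (N : Perm (Fin m × (Fin b × Fin m)) → ℝ) (δ : ℝ)
    (hcol : ∀ π : Fin m → Perm (Fin b × Fin m), (∀ j, Perm.sign (π j) = 1) →
      N (flipE m b * prodCongrRight π * (flipE m b)⁻¹) ≤ δ) (h : Perm (Fin m × (Fin b × Fin m)))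
    (hc : ∀ e, (h e).2.2 = e.2.2) (j₀ : Fin m) (hj : ∀ e, e.2.2 ≠ j₀ → h e = e)
    (hs : Perm.sign h = 1) : N h ≤ δ := by
  have h1 := one_row (fun g => N (flipE m b * g * (flipE m b)⁻¹)) δ hcol
    (flipE m b * h * flipE m b) (flip_row h hc) j₀ (by
      intro e he
      have := hj (flipE m b e) (by simpa [flipE_apply] using he)
      simp only [Perm.mul_apply, this]
      rfl) (by
      rw [Perm.sign_mul, Perm.sign_mul, hs, mul_one, ← Perm.sign_mul, flipE_mul_self,
        Perm.sign_one])
  have h2 : flipE m b * (flipE m b * h * flipE m b) * (flipE m b)⁻¹ = h := by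
    rw [flipE_inv, mul_assoc (flipE m b) h, ← mul_assoc (flipE m b) (flipE m b), flipE_mul_self,
      one_mul, mul_assoc, flipE_mul_self, mul_one]
  simpa only [h2] using h1

/-- an even row permutation -/
theorem row_bound (hb : 2 ≤ b) (hm : 0 < m) (N : Perm (Fin m × (Fin b × Fin m)) → ℝ) (δ : ℝ)
    (hmul : ∀ g h, N (g * h) ≤ N g + N h)
    (hrow : ∀ π : Fin m → Perm (Fin b × Fin m), (∀ j, Perm.sign (π j) = 1) →
      N (prodCongrRight π) ≤ δ)
    (hcol : ∀ π : Fin m → Perm (Fin b × Fin m), (∀ j, Perm.sign (π j) = 1) →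
      N (flipE m b * prodCongrRight π * (flipE m b)⁻¹) ≤ δ)
    (h : Perm (Fin m × (Fin b × Fin m))) (hr : ∀ e, (h e).1 = e.1)
    (hs : Perm.sign h = 1) : N h ≤ 2 * δ := by
  obtain ⟨π, hπ, -⟩ := exists_prodCongrRight h hr
  set z : Fin m := ⟨0, hm⟩ with hz
  set τ : Perm (Fin b × Fin m) := swap (⟨0, by omega⟩, z) (⟨1, by omega⟩, z) with hτ
  have hτs : Perm.sign τ = -1 := Perm.sign_swap (by simp)
  have hττ : τ * τ = 1 := Equiv.swap_mul_self _ _
  set ρ : Fin m → Perm (Fin b × Fin m) := fun j => if Perm.sign (π j) = 1 then 1 else τ with hρ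
  have hρρ : ∀ j, ρ j * ρ j = 1 := by
    intro j
    simp only [hρ]
    split_ifs
    · exact one_mul 1
    · exact hττ
  have hprod : h = prodCongrRight (fun j => π j * ρ j) * prodCongrRight ρ := by
    rw [hπ]
    ext1 e
    have h3 : ρ e.1 (ρ e.1 e.2) = e.2 := by
      have := congrArg (fun σ : Perm (Fin b × Fin m) => σ e.2) (hρρ e.1)
      exact this
    show (e.1, π e.1 e.2) = (e.1, π e.1 (ρ e.1 (ρ e.1 e.2)))
    rw [h3]
  have hsign : ∀ j, Perm.sign (π j * ρ j) = 1 := by
    intro j
    simp only [hρ]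
    split_ifs with h1
    · rw [mul_one, h1]
    · rw [Perm.sign_mul, hτs]
      rcases Int.units_eq_one_or (Perm.sign (π j)) with h2 | h2
      · exact (h1 h2).elim
      · rw [h2]; rfl
  have h1 : N (prodCongrRight (fun j => π j * ρ j)) ≤ δ := hrow _ hsign
  have h2 : N (prodCongrRight ρ) ≤ δ := by
    apply one_col N δ hcol _ _ z
    · rintro ⟨j, x⟩ hx
      rw [prodCongrRight_apply]
      refine Prod.ext rfl ?_
      show (ρ j) x = x
      simp only [hρ]
      split_ifs
      · rfl
      · rw [hτ]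
        apply Equiv.swap_apply_of_ne_of_ne
        · rintro rfl; exact hx rfl
        · rintro rfl; exact hx rfl
    · have h3 : Perm.sign h = Perm.sign (prodCongrRight (fun j => π j * ρ j)) *
          Perm.sign (prodCongrRight ρ) := by
        conv_lhs => rw [hprod]
        rw [Perm.sign_mul]
      rw [hs, Perm.sign_prodCongrRight (fun j => π j * ρ j)] at h3
      simp only [hsign, Finset.prod_const_one, one_mul] at h3
      exact h3.symm
    · rintro ⟨j, x⟩
      rw [prodCongrRight_apply]
      show ((ρ j) x).2 = x.2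
      simp only [hρ]
      split_ifs
      · rfl
      · rw [hτ, Equiv.swap_apply_def]
        split_ifs with h4 h5
        · rw [h4]
        · rw [h5]
        · rfl
  calc N h = N (prodCongrRight (fun j => π j * ρ j) * prodCongrRight ρ) := by rw [← hprod]
    _ ≤ _ := hmul _ _
    _ ≤ δ + δ := add_le_add h1 h2
    _ = 2 * δ := by ring

/-- an even column permutation -/
theorem col_bound (hb : 2 ≤ b) (hm : 0 < m) (N : Perm (Fin m × (Fin b × Fin m)) → ℝ) (δ : ℝ)
    (hmul : ∀ g h, N (g * h) ≤ N g + N h)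
    (hrow : ∀ π : Fin m → Perm (Fin b × Fin m), (∀ j, Perm.sign (π j) = 1) →
      N (prodCongrRight π) ≤ δ)
    (hcol : ∀ π : Fin m → Perm (Fin b × Fin m), (∀ j, Perm.sign (π j) = 1) →
      N (flipE m b * prodCongrRight π * (flipE m b)⁻¹) ≤ δ)
    (h : Perm (Fin m × (Fin b × Fin m))) (hc : ∀ e, (h e).2.2 = e.2.2)
    (hs : Perm.sign h = 1) : N h ≤ 2 * δ := by
  have key : ∀ x : Perm (Fin m × (Fin b × Fin m)),
      flipE m b * (flipE m b * x * flipE m b) * (flipE m b)⁻¹ = x := by
    intro x
    rw [flipE_inv, mul_assoc (flipE m b) x, ← mul_assoc (flipE m b) (flipE m b), flipE_mul_self,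
      one_mul, mul_assoc, flipE_mul_self, mul_one]
  have h1 := row_bound hb hm (fun g => N (flipE m b * g * (flipE m b)⁻¹)) δ (by
      intro x y
      have e : flipE m b * (x * y) * (flipE m b)⁻¹ =
        (flipE m b * x * (flipE m b)⁻¹) * (flipE m b * y * (flipE m b)⁻¹) := by group
      show N (flipE m b * (x * y) * (flipE m b)⁻¹) ≤ _
      rw [e]
      exact hmul _ _) hcol (by
      intro π hπ
      show N (flipE m b * (flipE m b * prodCongrRight π * (flipE m b)⁻¹) * (flipE m b)⁻¹) ≤ δ
      have := key (prodCongrRight π)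
      rw [flipE_inv] at this ⊢
      rw [this]
      exact hrow π hπ)
    (flipE m b * h * flipE m b) (flip_row h hc) (by
      rw [Perm.sign_mul, Perm.sign_mul, hs, mul_one, ← Perm.sign_mul, flipE_mul_self,
        Perm.sign_one])
  simpa only [key] using h1

/-- **Routing in a grid** (Slepian-Duguid with parity). -/
theorem routing {m b : ℕ} (hb : 2 ≤ b) (N : Perm (Fin m × (Fin b × Fin m)) → ℝ) (δ : ℝ)
    (hmul : ∀ g h, N (g * h) ≤ N g + N h)
    (hrow : ∀ π : Fin m → Perm (Fin b × Fin m), (∀ j, Perm.sign (π j) = 1) →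
      N (prodCongrRight π) ≤ δ)
    (hcol : ∀ π : Fin m → Perm (Fin b × Fin m), (∀ j, Perm.sign (π j) = 1) →
      N (flipE m b * prodCongrRight π * (flipE m b)⁻¹) ≤ δ)
    (g : Perm (Fin m × (Fin b × Fin m))) (hg : Perm.sign g = 1) : N g ≤ 6 * δ := by
  have hδ : 0 ≤ δ := by
    have h1 := hmul 1 1
    rw [one_mul] at h1
    have h2 := hrow (fun _ => 1) (fun _ => Perm.sign_one)
    have h3 : (prodCongrRight (fun _ : Fin m => (1 : Perm (Fin b × Fin m)))) = 1 := by
      ext e <;> rfl
    rw [h3] at h2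
    linarith
  rcases Nat.eq_zero_or_pos m with hm | hm
  · subst hm
    have h3 : g = prodCongrRight (fun _ : Fin 0 => (1 : Perm (Fin b × Fin 0))) := by
      ext e <;> exact (e.1).elim0
    rw [h3]
    have := hrow (fun _ => 1) (fun _ => Perm.sign_one)
    linarith
  have hR : ∀ h : Perm (Fin m × (Fin b × Fin m)), (∀ e, (h e).1 = e.1) → Perm.sign h = 1 →
      N h ≤ 2 * δ := row_bound hb hm N δ hmul hrow hcol
  have hC : ∀ h : Perm (Fin m × (Fin b × Fin m)), (∀ e, (h e).2.2 = e.2.2) → Perm.sign h = 1 →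
      N h ≤ 2 * δ := col_bound hb hm N δ hmul hrow hcol
  -- the involution in both groups
  set z : Fin m := ⟨0, hm⟩ with hz
  set t : Perm (Fin m × (Fin b × Fin m)) := swap (z, (⟨0, by omega⟩, z)) (z, (⟨1, by omega⟩, z))
    with ht
  have hts : Perm.sign t = -1 := Perm.sign_swap (by simp)
  have htt : t * t = 1 := Equiv.swap_mul_self _ _
  have htr : ∀ e, (t e).1 = e.1 := by
    intro e
    rw [ht, Equiv.swap_apply_def]
    split_ifs with h4 h5
    · rw [h4]
    · rw [h5]
    · rfl
  have htc : ∀ e, (t e).2.2 = e.2.2 := by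
    intro e
    rw [ht, Equiv.swap_apply_def]
    split_ifs with h4 h5
    · rw [h4]
    · rw [h5]
    · rfl
  obtain ⟨c, hc1, hc2⟩ := colouring g
  set h₁ : Perm (Fin m × (Fin b × Fin m)) := Equiv.ofBijective _ hc1 with hh1
  set k : Perm (Fin m × (Fin b × Fin m)) := Equiv.ofBijective _ hc2 with hk
  have h1a : ∀ e, h₁ e = (e.1, c e) := fun e => rfl
  have hka : ∀ e, k e = ((g e).1, c e) := fun e => rfl
  set h₂ := k * h₁⁻¹ with hh2
  set h₃ := g * k⁻¹ with hh3
  have hprod : g = h₃ * h₂ * h₁ := by rw [hh3, hh2]; group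
  have hr1 : ∀ e, (h₁ e).1 = e.1 := fun e => rfl
  have hc2' : ∀ e, (h₂ e).2.2 = e.2.2 := by
    intro e
    obtain ⟨e', rfl⟩ := h₁.surjective e
    rw [hh2, Perm.mul_apply, show h₁⁻¹ (h₁ e') = e' from h₁.symm_apply_apply e', hka, h1a]
  have hr3 : ∀ e, (h₃ e).1 = e.1 := by
    intro e
    obtain ⟨e', rfl⟩ := k.surjective e
    rw [hh3, Perm.mul_apply, show k⁻¹ (k e') = e' from k.symm_apply_apply e', hka]
  have htr' : ∀ h : Perm (Fin m × (Fin b × Fin m)), (∀ e, (h e).1 = e.1) →
      ∀ e, ((h * t) e).1 = e.1 := by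
    intro h hh e; rw [Perm.mul_apply, hh, htr]
  have htr'' : ∀ h : Perm (Fin m × (Fin b × Fin m)), (∀ e, (h e).1 = e.1) →
      ∀ e, ((t * h) e).1 = e.1 := by
    intro h hh e; rw [Perm.mul_apply, htr, hh]
  have htc' : ∀ h : Perm (Fin m × (Fin b × Fin m)), (∀ e, (h e).2.2 = e.2.2) →
      ∀ e, ((h * t) e).2.2 = e.2.2 := by
    intro h hh e; rw [Perm.mul_apply, hh, htc]
  have htc'' : ∀ h : Perm (Fin m × (Fin b × Fin m)), (∀ e, (h e).2.2 = e.2.2) →
      ∀ e, ((t * h) e).2.2 = e.2.2 := by
    intro h hh e; rw [Perm.mul_apply, htc, hh]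
  have htri : ∀ x y z' : Perm (Fin m × (Fin b × Fin m)), N (x * y * z') ≤ N x + N y + N z' := by
    intro x y z'
    have e1 := hmul (x * y) z'
    have e2 := hmul x y
    linarith
  have hsum : Perm.sign h₃ * Perm.sign h₂ * Perm.sign h₁ = 1 := by
    rw [← Perm.sign_mul, ← Perm.sign_mul, ← hprod, hg]
  have fin : ∀ x y z' : Perm (Fin m × (Fin b × Fin m)), g = x * y * z' → (∀ e, (x e).1 = e.1) →
      (∀ e, (y e).2.2 = e.2.2) → (∀ e, (z' e).1 = e.1) → Perm.sign x = 1 → Perm.sign y = 1 →
      Perm.sign z' = 1 → N g ≤ 6 * δ := by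
    intro x y z' hxyz hx hy hz hsx hsy hsz
    have e1 := hR x hx hsx
    have e2 := hC y hy hsy
    have e3 := hR z' hz hsz
    rw [hxyz]
    have := htri x y z'
    linarith
  rcases Int.units_eq_one_or (Perm.sign h₃) with s3 | s3 <;>
    rcases Int.units_eq_one_or (Perm.sign h₂) with s2 | s2 <;>
    rcases Int.units_eq_one_or (Perm.sign h₁) with s1 | s1 <;>
    rw [s3, s2, s1] at hsum
  · exact fin h₃ h₂ h₁ hprod hr3 hc2' hr1 s3 s2 s1
  · exact absurd hsum (by decide)
  · exact absurd hsum (by decide)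
  · -- h₂, h₁ odd
    refine fin h₃ (h₂ * t) (t * h₁) ?_ hr3 (htc' _ hc2') (htr'' _ hr1) s3
      (by rw [Perm.sign_mul, s2, hts]; rfl) (by rw [Perm.sign_mul, s1, hts]; rfl)
    rw [hprod]
    calc h₃ * h₂ * h₁ = h₃ * h₂ * (t * t) * h₁ := by rw [htt, mul_one]
      _ = _ := by group
  · exact absurd hsum (by decide)
  · -- h₃, h₁ odd
    refine fin (h₃ * t) (t * h₂ * t) (t * h₁) ?_ (htr' _ hr3) (htc' _ (htc'' _ hc2')) (htr'' _ hr1)
      (by rw [Perm.sign_mul, s3, hts]; rfl) (by rw [Perm.sign_mul, Perm.sign_mul, s2, hts]; rfl)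
      (by rw [Perm.sign_mul, s1, hts]; rfl)
    rw [hprod]
    calc h₃ * h₂ * h₁ = h₃ * (t * t) * h₂ * (t * t) * h₁ := by rw [htt, mul_one, mul_one]
      _ = _ := by group
  · -- h₃, h₂ odd
    refine fin (h₃ * t) (t * h₂) h₁ ?_ (htr' _ hr3) (htc'' _ hc2') hr1
      (by rw [Perm.sign_mul, s3, hts]; rfl) (by rw [Perm.sign_mul, s2, hts]; rfl) s1
    rw [hprod]
    calc h₃ * h₂ * h₁ = h₃ * (t * t) * h₂ * h₁ := by rw [htt, mul_one]
      _ = _ := by group
  · exact absurd hsum (by decide)

end Main

end Pool.Agent.Helper15.Pair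

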